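import Pool.Agent.Q183.PG.GrowP

/-!
Growth of exponential polynomials with algebraic coefficients (Evertse; van der Poorten and
Schlickewei), with polynomial coefficients.
-/

set_option autoImplicit false

open Finset Filter Topology

namespace Pool.Agent.Q183.PG

open Pool.Agent.TH286.GT Pool.Agent.TH286.GT.GrowD
open NumberField Polynomial

section field

variable {K : Type} [Field K] [NumberField K] [IsGalois ℚ K]

/-- the growth theorem for integers of a Galois number field -/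
theorem growK (ψ : K →+* ℂ)
    (cj : K ≃ₐ[ℚ] K) (hcj : ∀ x, ψ (cj x) = (starRingEnd ℂ) (ψ x)) (iK : K)
    (hi : ψ iK = Complex.I) {ι : Type} [Fintype ι] (lam : ι → 𝓞 K) (P : ι → (𝓞 K)[X])
    (hlam : ∀ i, lam i ≠ 0)
    (hnd : ∀ i i', i ≠ i' → ∀ t : ℕ, 1 ≤ t → lam i ^ t ≠ lam i' ^ t)
    (R : ℝ) (hR : 0 < R) (Q : ℝ) (hQ : 0 < Q) (i0 : ι) (hc : P i0 ≠ 0)
    (hRi : R < ‖ψ (lam i0 : K)‖) :
    ∃ N : ℕ, ∀ n, N ≤ n → Q * R ^ n <
      ‖ψ ((∑ i, (P i).eval (n : 𝓞 K) * lam i ^ n : 𝓞 K) : K)‖ := by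
  classical
  by_contra hcon
  push Not at hcon
  set L : Finset (𝓞 K) := ((Finset.univ : Finset (K ≃ₐ[ℚ] K)) ×ˢ (Finset.univ : Finset ι)).image
    (fun q => sg q.1 (lam q.2)) with hL
  have hLmem : ∀ x ∈ L, ∃ σ : K ≃ₐ[ℚ] K, ∃ i, sg σ (lam i) = x := by
    intro x hx
    obtain ⟨q, hq, rfl⟩ := Finset.mem_image.1 hx
    exact ⟨q.1, q.2, rfl⟩
  have hmemL : ∀ (σ : K ≃ₐ[ℚ] K), ∀ i, sg σ (lam i) ∈ L := fun σ i =>
    Finset.mem_image.2 ⟨(σ, i), Finset.mem_product.2 ⟨Finset.mem_univ _, Finset.mem_univ _⟩, rfl⟩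
  obtain ⟨T, hT, hTL⟩ := exists_exp L
  set Λ : Finset (𝓞 K) := L.image (fun x => x ^ T) with hΛ
  have hlamΛ : ∀ i, lam i ^ T ∈ Λ := fun i =>
    Finset.mem_image.2 ⟨lam i, by
      have := hmemL AlgEquiv.refl i
      exact this, rfl⟩
  have hstab : ∀ σ : K ≃ₐ[ℚ] K, ∀ x ∈ Λ, sg σ x ∈ Λ := by
    intro σ x hx
    obtain ⟨y, hy, rfl⟩ := Finset.mem_image.1 hx
    obtain ⟨τ, i, rfl⟩ := hLmem y hy
    refine Finset.mem_image.2 ⟨sg (τ.trans σ) (lam i), hmemL _ i, ?_⟩
    rw [← sg_comp, map_pow]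
  obtain ⟨p, hp⟩ := exists_poly Λ hstab
  obtain ⟨m0, hm0⟩ := exists_class (fun n => ‖ψ ((∑ i, (P i).eval (n : 𝓞 K) * lam i ^ n : 𝓞 K) : K)‖
    ≤ Q * R ^ n) hcon T hT
  set e := Λ.equivFin with he
  set μ : Fin Λ.card → 𝓞 K := fun i => (e.symm i : 𝓞 K) with hμ
  have hμmem : ∀ i, μ i ∈ Λ := fun i => (e.symm i).2
  -- the polynomials on the residue class
  set G : 𝓞 K → (𝓞 K)[X] := fun ν => ∑ i ∈ Finset.univ.filter (fun i => lam i ^ T = ν),
    C (lam i ^ m0) * (P i).comp (C (m0 : 𝓞 K) + C (T : 𝓞 K) * X) with hG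
  have key : ∀ k : ℕ, ∑ l, (G (μ l)).eval (k : 𝓞 K) * μ l ^ k =
      ∑ i, (P i).eval ((m0 + T * k : ℕ) : 𝓞 K) * lam i ^ (m0 + T * k) := by
    intro k
    have h1 : ∑ l, (G (μ l)).eval (k : 𝓞 K) * μ l ^ k =
        ∑ ν ∈ Λ, (G ν).eval (k : 𝓞 K) * ν ^ k := by
      rw [← Finset.sum_coe_sort Λ (fun ν => (G ν).eval (k : 𝓞 K) * ν ^ k),
        ← Equiv.sum_comp e.symm (fun ν : Λ => (G ν).eval (k : 𝓞 K) * (ν : 𝓞 K) ^ k)]
    rw [h1, ← Finset.sum_fiberwise_of_maps_to (s := Finset.univ) (g := fun i => lam i ^ T)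
      (t := Λ) (fun i _ => hlamΛ i)]
    refine Finset.sum_congr rfl fun ν _ => ?_
    simp only [hG]
    rw [eval_finset_sum, Finset.sum_mul]
    refine Finset.sum_congr rfl fun i hi' => ?_
    rw [← (Finset.mem_filter.1 hi').2, pow_add, pow_mul, eval_mul, eval_C, eval_comp, eval_add,
      eval_mul, eval_C, eval_C, eval_X]
    push_cast
    ring
  set l0 : Fin Λ.card := e ⟨lam i0 ^ T, hlamΛ i0⟩ with hl0
  have hμl0 : μ l0 = lam i0 ^ T := by
    rw [hμ, hl0]
    simp only [Equiv.symm_apply_apply]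
  have hGl0 : G (μ l0) ≠ 0 := by
    have h1 : Finset.univ.filter (fun i => lam i ^ T = μ l0) = {i0} := by
      ext i
      rw [Finset.mem_filter, Finset.mem_singleton, hμl0]
      constructor
      · rintro ⟨-, h2⟩
        by_contra hne
        exact hnd i i0 hne T hT h2
      · rintro rfl
        exact ⟨Finset.mem_univ _, rfl⟩
    simp only [hG]
    rw [h1, Finset.sum_singleton]
    refine mul_ne_zero (C_ne_zero.2 (pow_ne_zero _ (hlam i0))) ?_
    intro h0
    have hT0 : (T : 𝓞 K) ≠ 0 := by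
      have : T ≠ 0 := by omega
      exact_mod_cast this
    have h2 : (C (m0 : 𝓞 K) + C (T : 𝓞 K) * X).natDegree = 1 := by
      rw [add_comm]
      exact natDegree_linear hT0
    rcases comp_eq_zero_iff.1 h0 with h3 | ⟨-, h3⟩
    · exact hc h3
    · rw [h3, natDegree_C] at h2
      exact absurd h2 (by norm_num)
  -- the number of powers
  set q : ℕ := (Finset.univ.sup fun l => (G (μ l)).natDegree) + 1 with hq
  have hdeg : ∀ l, (G (μ l)).natDegree < q := fun l => Nat.lt_succ_of_le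
    (Finset.le_sup (f := fun l => (G (μ l)).natDegree) (Finset.mem_univ l))
  have hev : ∀ (k : ℕ), ∑ l : Fin (Λ.card * q), (G (μ (finProdFinEquiv.symm l).1)).coeff
      (finProdFinEquiv.symm l).2 * ((k : 𝓞 K) ^ ((finProdFinEquiv.symm l).2 : ℕ) *
        μ (finProdFinEquiv.symm l).1 ^ k) = ∑ l, (G (μ l)).eval (k : 𝓞 K) * μ l ^ k := by
    intro k
    rw [← Equiv.sum_comp (finProdFinEquiv (m := Λ.card) (n := q)), Fintype.sum_prod_type]
    simp only [Equiv.symm_apply_apply]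
    refine Finset.sum_congr rfl fun l _ => ?_
    rw [eval_eq_sum_range' (hdeg l), Finset.sum_range, Finset.sum_mul]
    refine Finset.sum_congr rfl fun a _ => ?_
    ring
  obtain ⟨a0, ha0⟩ : ∃ a : Fin q, (G (μ l0)).coeff a ≠ 0 :=
    ⟨⟨(G (μ l0)).natDegree, hdeg l0⟩, by
      rw [coeff_natDegree]
      exact leadingCoeff_ne_zero.2 hGl0⟩
  have hψ : Function.Injective ψ := ψ.injective
  have hiint : IsIntegral ℤ iK := by
    have h1 : iK ^ 2 = -1 := by
      apply hψ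
      rw [map_pow, hi, Complex.I_sq, map_neg, map_one]
    refine IsIntegral.of_pow (n := 2) (by norm_num) ?_
    rw [h1]
    exact isIntegral_one.neg
  obtain ⟨N0, hN0⟩ := growP (𝓞 K) (ψ.comp (algebraMap (𝓞 K) K)) (sg cj) (fun x => hcj x)
    ⟨iK, hiint⟩ hi Λ.card q μ (by
      intro i j hij k hk heq
      apply hij
      obtain ⟨a, ha, ha'⟩ := Finset.mem_image.1 (hμmem i)
      obtain ⟨b, hb, hb'⟩ := Finset.mem_image.1 (hμmem j)
      have h1 : a ^ T = b ^ T := by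
        apply hTL a ha b hb
        refine ⟨T * k, Nat.mul_pos hT hk, ?_⟩
        rw [pow_mul, pow_mul]
        rw [ha', hb', heq]
      have h2 : μ i = μ j := by
        rw [← ha', ← hb']
        exact h1
      exact e.symm.injective (Subtype.ext h2))
    (by
      intro i
      obtain ⟨a, ha, ha'⟩ := Finset.mem_image.1 (hμmem i)
      obtain ⟨τ, i', rfl⟩ := hLmem a ha
      rw [← ha']
      refine pow_ne_zero _ fun h0 => hlam i' ?_
      apply sg_inj τ
      rw [h0, map_zero])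
    (fun j => p j) (by
      intro i
      rw [hp (μ i) (hμmem i), Finset.sum_range])
    (fun l => (G (μ (finProdFinEquiv.symm l).1)).coeff (finProdFinEquiv.symm l).2)
    (finProdFinEquiv (l0, a0)) (by
      simp only [Equiv.symm_apply_apply]
      exact ha0) (R ^ T) (Q * R ^ m0) (by positivity) (by positivity) (by
      simp only [Equiv.symm_apply_apply]
      rw [hμl0, map_pow, norm_pow]
      exact pow_lt_pow_left₀ hRi hR.le (by omega))
  obtain ⟨k, hk, hB⟩ := hm0 N0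
  have h3 := hN0 k hk
  rw [hev k, key k] at h3
  have h4 : Q * R ^ m0 * (R ^ T) ^ k = Q * R ^ (m0 + T * k) := by
    rw [pow_add, pow_mul, mul_assoc]
  rw [h4] at h3
  exact absurd hB (not_le.2 h3)

end field

/-- **The growth theorem** with polynomial coefficients. -/
theorem growth {ι : Type} [Fintype ι] (lam : ι → ℂ) (P : ι → ℂ[X])
    (halg : ∀ i, IsAlgebraic ℚ (lam i) ∧ lam i ≠ 0 ∧ ∀ k, IsAlgebraic ℚ ((P i).coeff k))
    (hnd : ∀ i i', i ≠ i' → ∀ t : ℕ, 1 ≤ t → lam i ^ t ≠ lam i' ^ t) (R : ℝ) (hR0 : 0 ≤ R)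
    (i0 : ι) (hP0 : P i0 ≠ 0) (hRi : R < ‖lam i0‖) :
    ∃ N : ℕ, ∀ n : ℕ, N ≤ n → R ^ n < ‖∑ i, (P i).eval (n : ℂ) * lam i ^ n‖ := by
  classical
  obtain ⟨K, hfd, hnorm, hK⟩ := exists_field (Finset.univ.image lam ∪
    (Finset.univ.biUnion fun i => (Finset.range ((P i).natDegree + 1)).image (P i).coeff) ∪
      {Complex.I}) (by
    intro x hx
    rw [Finset.mem_union, Finset.mem_union, Finset.mem_image, Finset.mem_biUnion,
      Finset.mem_singleton] at hx
    rcases hx with (⟨i, hi, rfl⟩ | ⟨i, hi, h1⟩) | rfl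
    · exact (halg i).1
    · obtain ⟨k, -, rfl⟩ := Finset.mem_image.1 h1
      exact (halg i).2.2 k
    · exact Complex.isIntegral_rat_I.isAlgebraic)
  have hlamK : ∀ i, lam i ∈ K := fun i => hK _ (Finset.mem_union_left _
    (Finset.mem_union_left _ (Finset.mem_image_of_mem _ (Finset.mem_univ i))))
  have hcK : ∀ i k, (P i).coeff k ∈ K := by
    intro i k
    by_cases hk : k ≤ (P i).natDegree
    · refine hK _ (Finset.mem_union_left _ (Finset.mem_union_right _ (Finset.mem_biUnion.2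
        ⟨i, Finset.mem_univ _, Finset.mem_image_of_mem _ (Finset.mem_range.2 (by omega))⟩)))
    · rw [coeff_eq_zero_of_natDegree_lt (by omega)]
      exact zero_mem K
  have hIK : Complex.I ∈ K := hK _ (Finset.mem_union_right _ (Finset.mem_singleton_self _))
  have : NumberField K := { to_charZero := inferInstance, to_finiteDimensional := hfd }
  have : IsGalois ℚ K := { to_isSeparable := inferInstance, to_normal := hnorm }
  set ψ : K →+* ℂ := algebraMap K ℂ with hψ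
  set cj : K ≃ₐ[ℚ] K := AlgEquiv.restrictNormal (Complex.conjAe.restrictScalars ℚ) K with hcj
  have hcj' : ∀ x, ψ (cj x) = (starRingEnd ℂ) (ψ x) := fun x =>
    AlgEquiv.restrictNormal_commutes (Complex.conjAe.restrictScalars ℚ) K x
  set S : Finset K := ((Finset.univ : Finset ι).image fun i : ι => (⟨lam i, hlamK i⟩ : K)) ∪
    (Finset.univ.biUnion fun i : ι => (Finset.range ((P i).natDegree + 1)).image
      fun k => (⟨(P i).coeff k, hcK i k⟩ : K)) with hS
  obtain ⟨y, hy0, hy⟩ := exists_integral_multiples ℤ ℚ S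
  set q : ℕ := y.natAbs * y.natAbs with hq
  have hq0 : 0 < q := Nat.mul_pos (Int.natAbs_pos.2 hy0) (Int.natAbs_pos.2 hy0)
  have hint : ∀ x ∈ S, IsIntegral ℤ ((q : K) * x) := by
    intro x hx
    have h1 : (q : K) * x = ((y : ℤ) : K) * (y • x) := by
      have h2 : ((q : ℕ) : ℤ) = y * y := Int.natAbs_mul_self
      have h3 : (q : K) = (y : K) * (y : K) := by
        rw [← Int.cast_mul, ← h2, Int.cast_natCast]
      rw [zsmul_eq_mul, ← mul_assoc, h3]
    rw [h1]
    exact (isIntegral_algebraMap (R := ℤ) (A := K) (x := y)).mul (hy x hx)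
  set φ : 𝓞 K →+* ℂ := ψ.comp (algebraMap (𝓞 K) K) with hφ
  have hL : ∀ i, ∃ l : 𝓞 K, φ l = (q : ℂ) * lam i := by
    intro i
    refine ⟨⟨(q : K) * ⟨lam i, hlamK i⟩, hint _ ?_⟩, ?_⟩
    · exact Finset.mem_union_left _ (Finset.mem_image.2 ⟨i, Finset.mem_univ _, rfl⟩)
    · show ψ ((q : K) * ⟨lam i, hlamK i⟩) = _
      rw [map_mul, map_natCast]
      rfl
  have hC : ∀ i k, ∃ l : 𝓞 K, φ l = (q : ℂ) * (P i).coeff k := by
    intro i k
    by_cases hk : k ≤ (P i).natDegree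
    · refine ⟨⟨(q : K) * ⟨(P i).coeff k, hcK i k⟩, hint _ ?_⟩, ?_⟩
      · exact Finset.mem_union_right _ (Finset.mem_biUnion.2 ⟨i, Finset.mem_univ _,
          Finset.mem_image.2 ⟨k, Finset.mem_range.2 (by omega), rfl⟩⟩)
      · show ψ ((q : K) * ⟨(P i).coeff k, hcK i k⟩) = _
        rw [map_mul, map_natCast]
        rfl
    · refine ⟨0, ?_⟩
      rw [map_zero, coeff_eq_zero_of_natDegree_lt (by omega), mul_zero]
  choose lamO hlamO using hL
  choose cO hcO using hC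
  have hqC : (q : ℂ) ≠ 0 := by exact_mod_cast hq0.ne'
  have hqR : (0 : ℝ) < q := by exact_mod_cast hq0
  have hφinj : Function.Injective φ := ψ.injective.comp RingOfIntegers.coe_injective
  let PO : ι → (𝓞 K)[X] := fun i => ∑ k ∈ Finset.range ((P i).natDegree + 1), monomial k (cO i k)
  have hPO : ∀ i, (PO i).map φ = C (q : ℂ) * P i := by
    intro i
    simp only [PO]
    rw [Polynomial.map_sum, as_sum_range_C_mul_X_pow (P i), Finset.mul_sum]
    have hdeg2 : (∑ k ∈ Finset.range ((P i).natDegree + 1), C ((P i).coeff k) * X ^ k : ℂ[X]) = P i :=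
      (as_sum_range_C_mul_X_pow (P i)).symm
    rw [hdeg2]
    refine Finset.sum_congr rfl fun k _ => ?_
    rw [map_monomial, hcO, ← C_mul_X_pow_eq_monomial, ← mul_assoc, ← C_mul]
  have hlam0 : ∀ i, lamO i ≠ 0 := by
    intro i h0
    have h1 := hlamO i
    rw [h0, map_zero] at h1
    rcases mul_eq_zero.1 h1.symm with h2 | h2
    · exact hqC h2
    · exact (halg i).2.1 h2
  have hc0 : PO i0 ≠ 0 := by
    intro h0
    have h1 := hPO i0
    rw [h0, Polynomial.map_zero] at h1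
    rcases mul_eq_zero.1 h1.symm with h2 | h2
    · exact hqC (C_eq_zero.1 h2)
    · exact hP0 h2
  have hndO : ∀ i i', i ≠ i' → ∀ t : ℕ, 1 ≤ t → lamO i ^ t ≠ lamO i' ^ t := by
    intro i i' hne t ht heq
    have h1 : φ (lamO i ^ t) = φ (lamO i' ^ t) := by rw [heq]
    rw [map_pow, map_pow, hlamO i, hlamO i', mul_pow, mul_pow] at h1
    exact hnd i i' hne t ht (mul_left_cancel₀ (pow_ne_zero _ hqC) h1)
  have hn0 : 0 < ‖lam i0‖ := norm_pos_iff.2 (halg i0).2.1
  set R1 : ℝ := max R (‖lam i0‖ / 2) with hR1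
  have hR1pos : 0 < R1 := lt_of_lt_of_le (half_pos hn0) (le_max_right _ _)
  have hR1lt : R1 < ‖lam i0‖ := max_lt hRi (half_lt_self hn0)
  obtain ⟨N, hN⟩ := growK ψ cj hcj' ⟨Complex.I, hIK⟩ rfl lamO PO hlam0 hndO (q * R1)
    (mul_pos hqR hR1pos) q hqR i0 hc0 (by
      show q * R1 < ‖φ (lamO i0)‖
      rw [hlamO i0, norm_mul, Complex.norm_natCast]
      exact mul_lt_mul_of_pos_left hR1lt hqR)
  refine ⟨N, fun n hn => ?_⟩
  have h1 : (q : ℝ) * (q * R1) ^ n < ‖φ (∑ i, (PO i).eval (n : 𝓞 K) * lamO i ^ n)‖ := hN n hn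
  have h2 : φ (∑ i, (PO i).eval (n : 𝓞 K) * lamO i ^ n) =
      (q : ℂ) ^ (n + 1) * ∑ i, (P i).eval (n : ℂ) * lam i ^ n := by
    rw [map_sum, Finset.mul_sum]
    refine Finset.sum_congr rfl fun i _ => ?_
    have h5 : φ ((PO i).eval (n : 𝓞 K)) = q * (P i).eval (n : ℂ) := by
      have h6 := congrArg (eval (n : ℂ)) (hPO i)
      rw [eval_mul, eval_C] at h6
      rw [← h6, ← map_natCast φ n, eval_map_apply]
    rw [map_mul, map_pow, hlamO i, h5]
    ring
  rw [h2, norm_mul, norm_pow, Complex.norm_natCast] at h1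
  have h3 : (q : ℝ) * (q * R1) ^ n = (q : ℝ) ^ (n + 1) * R1 ^ n := by ring
  rw [h3] at h1
  have h4 : R1 ^ n < ‖∑ i, (P i).eval (n : ℂ) * lam i ^ n‖ :=
    lt_of_mul_lt_mul_left h1 (by positivity)
  exact lt_of_le_of_lt (pow_le_pow_left₀ hR0 (le_max_left _ _) n) h4

end Pool.Agent.Q183.PG
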