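import Pool.Agent.Q183.PG.Rel
import Pool.Agent.Q183.AR.Dens
import Pool.Agent.Q183.AR.Clo
import Pool.Agent.H612.LR.T_SML

/-!
Growth of exponential polynomials, for nondegenerate families of roots of an integer polynomial.
-/

set_option autoImplicit false

open Finset Filter Topology Matrix

namespace Pool.Agent.Q183.PG

open Pool.Agent.TH286.GT Pool.Agent.TH286.GT.PowO Pool.Agent.H612.LR
open Pool.Agent.Q183.AR (Rec Rec.mul Rec.pow Rec.sum Rec.const fails fails_fin sz sz_pos wt dwindow)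

theorem rec_nat (R : Type) [CommRing R] : Rec fun t => (t : R) := by
  refine ⟨⟨2, ![-1, 2]⟩, fun n => ?_⟩
  rw [Fin.sum_univ_two]
  simp only [Matrix.cons_val_zero, Matrix.cons_val_one, Fin.val_zero, Fin.val_one]
  push_cast
  ring

theorem rec_XX {O : Type} [CommRing O] [IsDomain O] [CharZero O] {n : ℕ} (μ : Fin n → O)
    (hμ : Function.Injective μ) (p : Fin n → ℤ)
    (hp : ∀ i, μ i ^ n = ∑ j, ((p j : ℤ) : O) * μ i ^ (j : ℕ)) (j : Fin n) :
    Rec fun m => XX p m j := by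
  refine ⟨⟨n, p⟩, fun m => ?_⟩
  apply Int.cast_injective (α := O)
  simp only
  rw [Int.cast_sum, XX, trace_eq μ hμ p hp]
  have h1 : ∀ i : Fin n, (((p i * XX p (m + i) j : ℤ)) : O) =
      ∑ i', ((p i : ℤ) : O) * μ i' ^ (i : ℕ) * μ i' ^ (m + j) := by
    intro i
    rw [Int.cast_mul, XX, trace_eq μ hμ p hp, Finset.mul_sum]
    refine Finset.sum_congr rfl fun i' _ => ?_
    rw [mul_assoc, ← pow_add]
    congr 2
    ring
  rw [Finset.sum_congr rfl fun i _ => h1 i, Finset.sum_comm]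
  refine Finset.sum_congr rfl fun i' _ => ?_
  rw [← Finset.sum_mul, ← hp i', ← pow_add]
  congr 1
  ring

theorem rec_zeros {f : ℕ → ℤ} (hf : Rec f) (hz : ∀ N : ℕ, ∃ n, N ≤ n ∧ f n = 0) :
    ∃ n0 T : ℕ, 1 ≤ T ∧ ∀ t : ℕ, f (n0 + T * t) = 0 := by
  obtain ⟨⟨n, p⟩, hE⟩ := hf
  have hrec : ∀ m, f (m + n) = ∑ i ∈ Finset.range n,
      (fun i => if h : n - 1 - i < n then p ⟨n - 1 - i, h⟩ else 0) i * f (m + n - 1 - i) := by
    intro m
    have e2 : ∑ j : Fin n, p j * f (m + j) =
        ∑ i ∈ Finset.range n, (if h : i < n then p ⟨i, h⟩ else 0) * f (m + i) := by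
      rw [Finset.sum_range]
      refine Finset.sum_congr rfl fun j _ => ?_
      rw [dif_pos j.2]
    have e1 : f (m + n) = ∑ j : Fin n, p j * f (m + j) := hE m
    rw [e1, e2, ← Finset.sum_range_reflect]
    refine Finset.sum_congr rfl fun i hi => ?_
    rw [Finset.mem_range] at hi
    have e3 : m + (n - 1 - i) = m + n - 1 - i := by omega
    rw [e3]
  obtain ⟨d, K, G, hbd⟩ := SML_bd f _ n hrec
  obtain ⟨n0, T, -, hT, hzero⟩ := SML_zeros f d K G n hbd hz
  exact ⟨n0, T, hT, hzero⟩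

/-- nonzero exponential polynomials with nondegenerate bases do not vanish on progressions -/
theorem no_prog {ι : Type} (S : Finset ι) (β : ι → ℂ) (hβ : ∀ i ∈ S, β i ≠ 0) (k : ι → ℕ)
    (c : ι → ℂ)
    (hinj : ∀ i ∈ S, ∀ j ∈ S, ∀ d, 1 ≤ d → β i ^ d = β j ^ d → k i = k j → i = j)
    (hne : S.Nonempty) (hc : ∀ i ∈ S, c i ≠ 0) (n0 T : ℕ) (hT : 1 ≤ T)
    (h : ∀ t : ℕ, ∑ i ∈ S, c i * (((n0 + T * t : ℕ) : ℂ) ^ k i * β i ^ (n0 + T * t)) = 0) :
    False := by
  classical
  obtain ⟨i0, hi0, hmax⟩ := Finset.exists_max_image S (fun i => wt (β i) (k i)) hne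
  have hT0 : (0 : ℝ) < T := by exact_mod_cast hT
  obtain ⟨e, T', t0, he, h1⟩ := dwindow S β hβ k c hinj hmax hi0 rfl (hc i0 hi0) (1 / (2 * T))
    (by positivity)
  set K := max T' 1 with hK
  set t := n0 + T * (t0 + 1) with ht
  have h2 := h1 t (T * K) (by
    rw [ht]
    have : t0 + 1 ≤ T * (t0 + 1) := Nat.le_mul_of_pos_left _ hT
    omega) (by
    have h3 : T' ≤ K := le_max_left _ _
    exact h3.trans (Nat.le_mul_of_pos_left _ hT))
  have h3 : K ≤ fails (fun s => e * sz (wt (β i0) (k i0)) s ≤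
      ‖∑ i ∈ S, c i * ((s : ℂ) ^ k i * β i ^ s)‖) t (T * K) := by
    unfold fails
    have h4 : ((fun i => n0 + T * (t0 + 1 + i)) '' (Set.Iio K : Set ℕ)).ncard = K := by
      rw [Set.ncard_image_of_injective _ (fun a b hab => by
        have hab' : n0 + T * (t0 + 1 + a) = n0 + T * (t0 + 1 + b) := hab
        have h5 : T * (t0 + 1 + a) = T * (t0 + 1 + b) := by omega
        have h6 := Nat.eq_of_mul_eq_mul_left hT h5
        omega)]
      rw [← Finset.coe_Iio, Set.ncard_coe_finset, Nat.card_Iio]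
    refine le_trans (le_of_eq h4.symm) (Set.ncard_le_ncard ?_ (fails_fin _ _ _))
    rintro _ ⟨i, hi, rfl⟩
    have hi' : i < K := hi
    refine ⟨?_, ?_, ?_⟩
    · rw [ht]
      have : T * (t0 + 1) ≤ T * (t0 + 1 + i) := Nat.mul_le_mul_left _ (Nat.le_add_right _ _)
      show n0 + T * (t0 + 1) ≤ n0 + T * (t0 + 1 + i)
      omega
    · rw [ht]
      have : T * (t0 + 1 + i) < T * (t0 + 1) + T * K := by
        rw [← mul_add]
        exact Nat.mul_lt_mul_of_pos_left (by omega) hT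
      show n0 + T * (t0 + 1 + i) < n0 + T * (t0 + 1) + T * K
      omega
    · intro hle
      rw [h] at hle
      rw [norm_zero] at hle
      have hs : 1 ≤ n0 + T * (t0 + 1 + i) := by
        have : 1 ≤ T * (t0 + 1 + i) := Nat.mul_pos hT (by omega)
        omega
      have := mul_pos he (sz_pos (wt (β i0) (k i0)) hs)
      linarith
  have h4 : (K : ℝ) ≤ 1 / (2 * T) * ((T * K : ℕ) : ℝ) := le_trans (by exact_mod_cast h3) h2
  have h5 : 1 / (2 * T) * ((T * K : ℕ) : ℝ) = K / 2 := by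
    push_cast
    field_simp
  rw [h5] at h4
  have h6 : (1 : ℝ) ≤ K := by exact_mod_cast le_max_right T' 1
  linarith

/-- **Growth** of exponential polynomials for nondegenerate families of roots of an integer
polynomial. -/
theorem growP (O : Type) [CommRing O] [IsDomain O] [Module.Free ℤ O] [Module.Finite ℤ O]
    (φ : O →+* ℂ) (st : O →+* O) (hst : ∀ x, φ (st x) = (starRingEnd ℂ) (φ x)) (iO : O)
    (hi : φ iO = Complex.I) (n q : ℕ) (μ : Fin n → O)
    (hnd : ∀ i j, i ≠ j → ∀ k : ℕ, 1 ≤ k → μ i ^ k ≠ μ j ^ k)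
    (hμ0 : ∀ i, μ i ≠ 0) (p : Fin n → ℤ)
    (hp : ∀ i, μ i ^ n = ∑ j, ((p j : ℤ) : O) * μ i ^ (j : ℕ))
    (c : Fin (n * q) → O) (l0 : Fin (n * q)) (hc0 : c l0 ≠ 0) (R K0 : ℝ) (hR : 0 < R) (hK0 : 0 < K0)
    (hRμ : R < ‖φ (μ (finProdFinEquiv.symm l0).1)‖) :
    ∃ N0 : ℕ, ∀ m : ℕ, N0 ≤ m → K0 * R ^ m <
      ‖φ (∑ l, c l * ((m : O) ^ ((finProdFinEquiv.symm l).2 : ℕ) *
        μ (finProdFinEquiv.symm l).1 ^ m))‖ := by
  classical
  have : CharZero O := RingHom.charZero φ
  by_contra hcon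
  push Not at hcon
  choose nn hnn hle using hcon
  have htend : Tendsto nn atTop atTop := tendsto_atTop_mono hnn tendsto_id
  have hμ : Function.Injective μ := by
    intro i j h
    by_contra hij
    exact hnd i j hij 1 le_rfl (by rw [h])
  obtain ⟨y, hy, hfr⟩ := powP O φ st hst iO hi n q μ hμ hμ0 p hp c l0 hc0 R K0 hR hK0 hRμ nn htend hle
  set f : ℕ → ℤ := fun m => ∑ l, y l * ZZ q p m m l with hfdef
  have hfrec : Rec f := by
    refine Rec.sum Finset.univ fun l _ => (Rec.const (y l)).mul ?_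
    exact ((rec_nat ℤ).pow _).mul (rec_XX μ hμ p hp _)
  obtain ⟨n0, T, hT, hzero⟩ := rec_zeros hfrec (by
    intro N
    obtain ⟨t, ht1, ht2⟩ := (hfr.and_eventually (htend.eventually_ge_atTop N)).exists
    exact ⟨nn t, ht2, ht1⟩)
  -- the coefficients
  set d : Fin (n * q) → O := fun l => ∑ j : Fin n,
    ((y (finProdFinEquiv (j, (finProdFinEquiv.symm l).2)) : ℤ) : O) *
      μ (finProdFinEquiv.symm l).1 ^ (j : ℕ) with hd
  have hf : ∀ m, ((f m : ℤ) : O) = ∑ l, d l * ((m : O) ^ ((finProdFinEquiv.symm l).2 : ℕ) *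
      μ (finProdFinEquiv.symm l).1 ^ m) := by
    intro m
    have h1 : ∀ l, ((y l * ZZ q p m m l : ℤ) : O) = ((y l : ℤ) : O) *
        ((m : O) ^ ((finProdFinEquiv.symm l).2 : ℕ) *
          ∑ i, μ i ^ (m + ((finProdFinEquiv.symm l).1 : ℕ))) := by
      intro l
      unfold ZZ XX
      rw [Int.cast_mul, Int.cast_mul, trace_eq μ hμ p hp]
      push_cast
      ring
    simp only [hfdef]
    rw [Int.cast_sum, Finset.sum_congr rfl fun l _ => h1 l,
      ← Equiv.sum_comp (finProdFinEquiv (m := n) (n := q)),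
      ← Equiv.sum_comp (finProdFinEquiv (m := n) (n := q)),
      Fintype.sum_prod_type_right, Fintype.sum_prod_type_right]
    refine Finset.sum_congr rfl fun k _ => ?_
    simp only [Equiv.symm_apply_apply, hd]
    simp only [Finset.mul_sum, Finset.sum_mul]
    rw [Finset.sum_comm]
    refine Finset.sum_congr rfl fun i _ => Finset.sum_congr rfl fun j _ => ?_
    rw [pow_add]
    ring
  have hφinj : Function.Injective φ := by
    rw [injective_iff_map_eq_zero]
    intro x hx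
    by_contra h0
    exact phi_ne φ h0 hx
  by_cases hd0 : ∀ l, d l = 0
  · apply hy
    funext l
    have h2 : (fun j => ((y (finProdFinEquiv (j, (finProdFinEquiv.symm l).2)) : ℤ) : O)) = 0 := by
      apply Matrix.eq_zero_of_vecMul_eq_zero (vd_det_ne μ hμ)
      funext i
      have h3 := hd0 (finProdFinEquiv (i, (finProdFinEquiv.symm l).2))
      simp only [hd, Equiv.symm_apply_apply] at h3
      rw [Pi.zero_apply, ← h3, Matrix.vecMul, dotProduct]
      rfl
    have h3 := congrFun h2 (finProdFinEquiv.symm l).1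
    simp only [Prod.mk.eta, Equiv.apply_symm_apply, Pi.zero_apply] at h3
    exact_mod_cast h3
  · push Not at hd0
    obtain ⟨l1, hl1⟩ := hd0
    refine no_prog (Finset.univ.filter fun l => d l ≠ 0)
      (fun l => φ (μ (finProdFinEquiv.symm l).1)) (fun l _ => phi_ne φ (hμ0 _))
      (fun l => ((finProdFinEquiv.symm l).2 : ℕ)) (fun l => φ (d l)) ?_
      ⟨l1, Finset.mem_filter.2 ⟨Finset.mem_univ _, hl1⟩⟩
      (fun l hl => phi_ne φ (Finset.mem_filter.1 hl).2) n0 T hT (fun t => ?_)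
    · intro l _ l' _ k hk h1 h2
      rw [← map_pow, ← map_pow] at h1
      have h3 := hφinj h1
      have h4 : (finProdFinEquiv.symm l).1 = (finProdFinEquiv.symm l').1 := by
        by_contra hne
        exact hnd _ _ hne k hk h3
      have h5 : finProdFinEquiv.symm l = finProdFinEquiv.symm l' := Prod.ext h4 (Fin.ext h2)
      exact finProdFinEquiv.symm.injective h5
    · rw [Finset.sum_filter]
      have h2 : ∀ l, (if d l ≠ 0 then φ (d l) * (((n0 + T * t : ℕ) : ℂ) ^
          ((finProdFinEquiv.symm l).2 : ℕ) * φ (μ (finProdFinEquiv.symm l).1) ^ (n0 + T * t)) else 0) =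
          φ (d l) * (((n0 + T * t : ℕ) : ℂ) ^
          ((finProdFinEquiv.symm l).2 : ℕ) * φ (μ (finProdFinEquiv.symm l).1) ^ (n0 + T * t)) := by
        intro l
        split_ifs with hl
        · rfl
        · rw [not_not.1 hl, map_zero, zero_mul]
      simp only [h2]
      have h1 := congrArg φ (hf (n0 + T * t))
      rw [hzero t, Int.cast_zero, map_zero, map_sum] at h1
      rw [h1]
      refine Finset.sum_congr rfl fun l _ => ?_
      rw [map_mul, map_mul, map_pow, map_pow, map_natCast]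

end Pool.Agent.Q183.PG
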