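import Pool.Agent.TH286.GT.All

/-!
Growth of exponential polynomials with algebraic coefficients: the relation given by the subspace
theorem for the orbits of integer matrices (`Pool.Agent.TH286.GT`).
-/

set_option autoImplicit false

open Finset Filter Topology Matrix

namespace Pool.Agent.Q183.PG

open Pool.Agent.TH286.GT Pool.Agent.TH286.GT.PowO

/-- `q` copies of a matrix -/
def bd {R : Type} [Zero R] {n : ℕ} (q : ℕ) (M : Matrix (Fin n) (Fin n) R) :
    Matrix (Fin (n * q)) (Fin (n * q)) R :=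
  (Matrix.blockDiagonal (fun _ : Fin q => M)).submatrix finProdFinEquiv.symm finProdFinEquiv.symm

theorem bd_apply {R : Type} [Zero R] {n q : ℕ} (M : Matrix (Fin n) (Fin n) R) (l l' : Fin (n * q)) :
    bd q M l l' = if (finProdFinEquiv.symm l).2 = (finProdFinEquiv.symm l').2 then
      M (finProdFinEquiv.symm l).1 (finProdFinEquiv.symm l').1 else 0 := by
  unfold bd
  rw [Matrix.submatrix_apply, Matrix.blockDiagonal_apply]

theorem bd_sum {R : Type} [CommRing R] {n q : ℕ} (M : Matrix (Fin n) (Fin n) R)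
    (v : Fin (n * q) → R) (l : Fin (n * q)) :
    ∑ l', bd q M l l' * v l' = ∑ j, M (finProdFinEquiv.symm l).1 j *
      v (finProdFinEquiv (j, (finProdFinEquiv.symm l).2)) := by
  rw [← Equiv.sum_comp (finProdFinEquiv (m := n) (n := q)), Fintype.sum_prod_type]
  refine Finset.sum_congr rfl fun j _ => ?_
  simp only [bd_apply, Equiv.symm_apply_apply]
  rw [Finset.sum_eq_single (finProdFinEquiv.symm l).2]
  · rw [if_pos rfl]
  · intro k _ hk
    rw [if_neg (fun h => hk h.symm), zero_mul]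
  · intro h
    exact absurd (Finset.mem_univ _) h

theorem bd_det {R : Type} [CommRing R] {n q : ℕ} (M : Matrix (Fin n) (Fin n) R) :
    (bd q M).det = M.det ^ q := by
  unfold bd
  rw [Matrix.det_submatrix_equiv_self, Matrix.det_blockDiagonal, Finset.prod_const,
    Finset.card_univ, Fintype.card_fin]

section
variable {O : Type} [CommRing O]

/-- the state vectors -/
def ZZ {n : ℕ} (q : ℕ) (p : Fin n → ℤ) (m m' : ℕ) : Fin (n * q) → ℤ := fun l =>
  (m : ℤ) ^ ((finProdFinEquiv.symm l).2 : ℕ) * XX p m' (finProdFinEquiv.symm l).1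

theorem ZZ_step [IsDomain O] [CharZero O] {n : ℕ} (q : ℕ) (μ : Fin n → O)
    (hμ : Function.Injective μ) (p : Fin n → ℤ)
    (hp : ∀ i, μ i ^ n = ∑ j, ((p j : ℤ) : O) * μ i ^ (j : ℕ)) (m : ℕ) :
    ZZ q p m m = (bd q (comp p ^ m)).mulVec (ZZ q p m 0) := by
  funext l
  rw [Matrix.mulVec, dotProduct, bd_sum]
  unfold ZZ
  simp only [Equiv.symm_apply_apply]
  have h1 := congrFun (XX_step μ hμ p hp m) (finProdFinEquiv.symm l).1
  rw [Matrix.mulVec, dotProduct] at h1
  rw [h1, Finset.mul_sum]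
  refine Finset.sum_congr rfl fun j _ => ?_
  ring

theorem BM_ZZ [IsDomain O] {n : ℕ} (q : ℕ) (μ : Fin n → O) (hμ : Function.Injective μ)
    (p : Fin n → ℤ) (hp : ∀ i, μ i ^ n = ∑ j, ((p j : ℤ) : O) * μ i ^ (j : ℕ)) (m : ℕ)
    (l : Fin (n * q)) :
    ∑ l', bd q (MM μ) l l' * ((ZZ q p m m l' : ℤ) : O) =
      (vd μ).det ^ 2 * ((m : O) ^ ((finProdFinEquiv.symm l).2 : ℕ) *
        μ (finProdFinEquiv.symm l).1 ^ m) := by
  rw [bd_sum]
  unfold ZZ
  simp only [Equiv.symm_apply_apply]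
  have h1 := MM_XX μ hμ p hp m (finProdFinEquiv.symm l).1
  rw [mul_left_comm, ← h1, Finset.mul_sum]
  refine Finset.sum_congr rfl fun j _ => ?_
  push_cast
  ring

theorem BM_pow {n : ℕ} (q : ℕ) (μ : Fin n → O) (p : Fin n → ℤ)
    (hp : ∀ i, μ i ^ n = ∑ j, ((p j : ℤ) : O) * μ i ^ (j : ℕ)) (m : ℕ) :
    bd q (MM μ) * (bd q (comp p ^ m)).map (Int.castRingHom O) =
      Matrix.diagonal (fun l => μ (finProdFinEquiv.symm l).1 ^ m) * bd q (MM μ) := by
  have h1 := MM_pow μ p hp m
  rw [CO, ← map_pow] at h1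
  ext l l'
  rw [Matrix.mul_apply, Matrix.diagonal_mul]
  have h2 : ∀ l'', (bd q (comp p ^ m)).map (Int.castRingHom O) l'' l' =
      if (finProdFinEquiv.symm l'').2 = (finProdFinEquiv.symm l').2 then
        (((comp p ^ m) (finProdFinEquiv.symm l'').1 (finProdFinEquiv.symm l').1 : ℤ) : O) else 0 := by
    intro l''
    rw [Matrix.map_apply, bd_apply]
    split_ifs
    · rfl
    · simp
  simp only [h2]
  rw [bd_sum (MM μ) (fun l'' => if (finProdFinEquiv.symm l'').2 = (finProdFinEquiv.symm l').2 then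
        (((comp p ^ m) (finProdFinEquiv.symm l'').1 (finProdFinEquiv.symm l').1 : ℤ) : O) else 0)]
  simp only [Equiv.symm_apply_apply]
  rw [bd_apply]
  by_cases h : (finProdFinEquiv.symm l).2 = (finProdFinEquiv.symm l').2
  · simp only [if_pos h]
    have h3 := congrFun (congrFun h1 (finProdFinEquiv.symm l).1) (finProdFinEquiv.symm l').1
    rw [Matrix.mul_apply, Matrix.diagonal_mul] at h3
    exact h3
  · simp only [if_neg h, mul_zero, Finset.sum_const_zero]

end

/-- the numerical part -/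
theorem numer2 {N : ℕ} (i0 : Fin N) (L : Fin N → ℝ) (lK lKK lR : ℝ) (hg : lR < L i0) :
    ∃ δ c γ : ℝ, 0 < δ ∧ 1 ≤ c ∧ 0 < γ ∧ ∃ m0 : ℕ, ∀ m : ℕ, m0 ≤ m →
      (m : ℝ) * ∑ l, L l ≤ c * m ∧
      (∀ l, |if l = i0 then lKK + m * lR else lK + m * (L l + δ)| ≤ c * m) ∧
      ∑ l, (if l = i0 then lKK + m * lR else lK + m * (L l + δ)) + γ * m ≤ m * ∑ l, L l := by
  classical
  set δ : ℝ := (L i0 - lR) / (2 * (N + 1)) with hδ
  have hN : (0 : ℝ) < 2 * (N + 1) := by positivity
  have hδ0 : 0 < δ := div_pos (by linarith) hN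
  have hNδ : N * δ ≤ (L i0 - lR) / 2 := by
    rw [hδ, mul_div_assoc', div_le_div_iff₀ hN (by norm_num)]
    nlinarith
  have hNδ0 : 0 ≤ N * δ := by positivity
  set L' : Fin N → ℝ := fun l => if l = i0 then L i0 - N * δ else L l + δ with hL'
  obtain ⟨c, γ, hc, hγ, m0, h⟩ := Pool.Agent.TH286.GT.PowO.numer i0 L' lK lKK lR (by
    simp only [hL', if_true]
    linarith)
  have hsum : ∑ l, L' l ≤ ∑ l, L l := by
    have h1 : ∀ l, L' l = (L l + δ) + (if l = i0 then - δ - N * δ else 0) := by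
      intro l
      simp only [hL']
      split_ifs with hl
      · rw [hl]; ring
      · ring
    simp only [h1]
    rw [Finset.sum_add_distrib, Finset.sum_ite_eq' Finset.univ i0, if_pos (Finset.mem_univ _),
      Finset.sum_add_distrib, Finset.sum_const, Finset.card_univ, Fintype.card_fin, nsmul_eq_mul]
    linarith
  refine ⟨δ, c + |∑ l, L l|, γ, hδ0, by linarith [abs_nonneg (∑ l, L l)], hγ, m0, fun m hm => ?_⟩
  obtain ⟨h1, h2, h3⟩ := h m hm
  have hm0 : (0 : ℝ) ≤ m := Nat.cast_nonneg m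
  have hc0 : 0 ≤ c * m := mul_nonneg (by linarith) hm0
  have ha0 : 0 ≤ |∑ l, L l| * m := mul_nonneg (abs_nonneg _) hm0
  have he : ∀ l, (if l = i0 then lKK + m * lR else lK + m * (L l + δ)) =
      if l = i0 then lKK + m * lR else lK + m * L' l := by
    intro l
    split_ifs with hl
    · rfl
    · simp only [hL', if_neg hl]
  refine ⟨?_, fun l => ?_, ?_⟩
  · have := le_abs_self (∑ l, L l)
    nlinarith
  · rw [he]
    refine (h2 l).trans ?_
    linarith
  · simp only [he]
    exact h3.trans (mul_le_mul_of_nonneg_left hsum hm0)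

theorem poly_le_exp (q : ℕ) {δ : ℝ} (hδ : 0 < δ) : ∃ m1 : ℕ, ∀ m : ℕ, m1 ≤ m → ∀ k : ℕ, k ≤ q →
    (m : ℝ) ^ k ≤ Real.exp (δ * m) := by
  have h1 : Tendsto (fun x : ℝ => x ^ q * Real.exp (-(δ * x))) atTop (𝓝 0) := by
    have := Real.tendsto_pow_mul_exp_neg_atTop_nhds_zero q
    have h2 : Tendsto (fun x : ℝ => (δ * x) ^ q * Real.exp (-(δ * x))) atTop (𝓝 0) :=
      this.comp (tendsto_id.const_mul_atTop hδ)
    have h3 := h2.const_mul ((δ ^ q)⁻¹)
    rw [mul_zero] at h3
    refine h3.congr fun x => ?_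
    rw [mul_pow]
    have : δ ^ q ≠ 0 := by positivity
    field_simp
  have h2 := (h1.comp tendsto_natCast_atTop_atTop).eventually (ge_mem_nhds (zero_lt_one))
  obtain ⟨m1, hm1⟩ := eventually_atTop.1 (h2.and (eventually_ge_atTop 1))
  refine ⟨m1, fun m hm k hk => ?_⟩
  obtain ⟨h3, h4⟩ := hm1 m hm
  have h5 : (1 : ℝ) ≤ m := by exact_mod_cast h4
  simp only [Function.comp_apply] at h3
  rw [Real.exp_neg, ← div_eq_mul_inv, div_le_one (Real.exp_pos _)] at h3
  exact (pow_le_pow_right₀ h5 hk).trans h3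

/-- **The relation.** An exponential polynomial which is small infinitely often gives a rational
relation. -/
theorem powP (O : Type) [CommRing O] [IsDomain O] [Module.Free ℤ O] [Module.Finite ℤ O]
    (φ : O →+* ℂ) (st : O →+* O) (hst : ∀ x, φ (st x) = (starRingEnd ℂ) (φ x)) (iO : O)
    (hi : φ iO = Complex.I) (n q : ℕ) (μ : Fin n → O) (hμ : Function.Injective μ)
    (hμ0 : ∀ i, μ i ≠ 0) (p : Fin n → ℤ)
    (hp : ∀ i, μ i ^ n = ∑ j, ((p j : ℤ) : O) * μ i ^ (j : ℕ))
    (c : Fin (n * q) → O) (l0 : Fin (n * q)) (hc0 : c l0 ≠ 0) (R K0 : ℝ) (hR : 0 < R) (hK0 : 0 < K0)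
    (hRμ : R < ‖φ (μ (finProdFinEquiv.symm l0).1)‖) (nn : ℕ → ℕ) (hnn : Tendsto nn atTop atTop)
    (hsmall : ∀ t, ‖φ (∑ l, c l * ((nn t : O) ^ ((finProdFinEquiv.symm l).2 : ℕ) *
      μ (finProdFinEquiv.symm l).1 ^ nn t))‖ ≤ K0 * R ^ nn t) :
    ∃ y : Fin (n * q) → ℤ, y ≠ 0 ∧ ∃ᶠ t in atTop, ∑ l, y l * ZZ q p (nn t) (nn t) l = 0 := by
  classical
  have : CharZero O := RingHom.charZero φ
  have hn : 1 ≤ n * q := by have := l0.2; omega
  set Δ : O := (vd μ).det ^ 2 with hΔd
  have hΔ : Δ ≠ 0 := pow_ne_zero _ (vd_det_ne μ hμ)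
  have hφΔ : 0 < ‖φ Δ‖ := norm_pos_iff.2 (phi_ne φ hΔ)
  have hBdet : (bd q (MM μ)).det ≠ 0 := by
    rw [bd_det]
    exact pow_ne_zero _ (MM_det μ hμ)
  -- the modified forms
  let M1 : Matrix (Fin (n * q)) (Fin (n * q)) O :=
    (bd q (MM μ)).updateRow l0 (∑ k, c k • (bd q (MM μ)) k)
  have hM1det : M1.det ≠ 0 := by
    have e : M1.det = c l0 • (bd q (MM μ)).det := Matrix.det_updateRow_sum (bd q (MM μ)) l0 c
    rw [e, smul_eq_mul]
    exact mul_ne_zero hc0 hBdet
  have hM1a : ∀ m, ∑ j, M1 l0 j * ((ZZ q p m m j : ℤ) : O) = Δ * ∑ l, c l *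
      ((m : O) ^ ((finProdFinEquiv.symm l).2 : ℕ) * μ (finProdFinEquiv.symm l).1 ^ m) := by
    intro m
    have e1 : ∀ j, M1 l0 j = ∑ k, c k * bd q (MM μ) k j := by
      intro j
      have : M1 l0 = ∑ k, c k • (bd q (MM μ)) k := Matrix.updateRow_self
      rw [this]
      simp [Finset.sum_apply]
    calc ∑ j, M1 l0 j * ((ZZ q p m m j : ℤ) : O)
        = ∑ j, ∑ k, c k * (bd q (MM μ) k j * ((ZZ q p m m j : ℤ) : O)) := by
          refine Finset.sum_congr rfl fun j _ => ?_
          rw [e1, Finset.sum_mul]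
          refine Finset.sum_congr rfl fun k _ => ?_
          ring
      _ = ∑ k, c k * ∑ j, bd q (MM μ) k j * ((ZZ q p m m j : ℤ) : O) := by
          rw [Finset.sum_comm]
          refine Finset.sum_congr rfl fun k _ => ?_
          rw [Finset.mul_sum]
      _ = _ := by
          rw [Finset.mul_sum]
          refine Finset.sum_congr rfl fun k _ => ?_
          rw [BM_ZZ q μ hμ p hp]
          ring
  have hM1b : ∀ m i, i ≠ l0 → ∑ j, M1 i j * ((ZZ q p m m j : ℤ) : O) = Δ *
      ((m : O) ^ ((finProdFinEquiv.symm i).2 : ℕ) * μ (finProdFinEquiv.symm i).1 ^ m) := by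
    intro m i hii
    have e1 : ∀ j, M1 i j = bd q (MM μ) i j := fun j => by
      have : M1 i = (bd q (MM μ)) i := Matrix.updateRow_ne hii
      rw [this]
    rw [← BM_ZZ q μ hμ p hp m i]
    exact Finset.sum_congr rfl fun j _ => by rw [e1]
  obtain ⟨M0, hM0det, hM0im, hM0le⟩ := real_forms φ st hst iO hi M1 hM1det
  -- the sizes
  have hμpos : ∀ l, 0 < ‖φ (μ l)‖ := fun l => norm_pos_iff.2 (phi_ne φ (hμ0 l))
  set K : ℝ := 2 * ‖φ Δ‖ with hKd
  have hK : 0 < K := by positivity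
  obtain ⟨δ, cc, γ, hδ, hcc, hγ, m0, hm0⟩ := numer2 l0
    (fun l => Real.log ‖φ (μ (finProdFinEquiv.symm l).1)‖) (Real.log K)
    (Real.log (K * K0)) (Real.log R) (Real.log_lt_log hR hRμ)
  obtain ⟨m1, hm1⟩ := poly_le_exp q hδ
  let A : ℕ → Fin (n * q) → ℝ := fun m l => if l = l0 then K * K0 * R ^ m else
    K * (Real.exp δ * ‖φ (μ (finProdFinEquiv.symm l).1)‖) ^ m
  have hA0 : ∀ m l, 0 < A m l := by
    intro m l
    show 0 < if l = l0 then K * K0 * R ^ m else
      K * (Real.exp δ * ‖φ (μ (finProdFinEquiv.symm l).1)‖) ^ m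
    have := hμpos (finProdFinEquiv.symm l).1
    by_cases h : l = l0
    · rw [if_pos h]; positivity
    · rw [if_neg h]; positivity
  have hlogA : ∀ m l, Real.log (A m l) = if l = l0 then Real.log (K * K0) + m * Real.log R else
      Real.log K + m * (Real.log ‖φ (μ (finProdFinEquiv.symm l).1)‖ + δ) := by
    intro m l
    show Real.log (if l = l0 then K * K0 * R ^ m else
      K * (Real.exp δ * ‖φ (μ (finProdFinEquiv.symm l).1)‖) ^ m) = _
    have := hμpos (finProdFinEquiv.symm l).1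
    by_cases h : l = l0
    · rw [if_pos h, if_pos h, Real.log_mul (by positivity) (by positivity), Real.log_pow]
    · rw [if_neg h, if_neg h, Real.log_mul (by positivity) (by positivity), Real.log_pow,
        Real.log_mul (Real.exp_pos δ).ne' this.ne', Real.log_exp, add_comm δ]
  -- the determinant
  have hdetO : (((comp p).det : ℤ) : O) = ∏ l, μ l := by
    have h1 := congrArg Matrix.det (MM_pow μ p hp 1)
    rw [Matrix.det_mul, Matrix.det_mul, Matrix.det_diagonal, pow_one, mul_comm] at h1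
    have h2 := mul_right_cancel₀ (MM_det μ hμ) h1
    simp only [pow_one] at h2
    rw [← h2, CO, ← RingHom.map_det]
    rfl
  have hlogdet : ∀ m : ℕ, Real.log |(((bd q (comp p ^ m)).det : ℤ) : ℝ)| =
      m * ∑ l : Fin (n * q), Real.log ‖φ (μ (finProdFinEquiv.symm l).1)‖ := by
    intro m
    have h1 : |(((comp p).det : ℤ) : ℝ)| = ∏ l, ‖φ (μ l)‖ := by
      rw [← norm_prod, ← map_prod, ← hdetO, map_intCast, Complex.norm_intCast]
    have h2 : ∑ l : Fin (n * q), Real.log ‖φ (μ (finProdFinEquiv.symm l).1)‖ =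
        q * ∑ l, Real.log ‖φ (μ l)‖ := by
      rw [← Equiv.sum_comp (finProdFinEquiv (m := n) (n := q)), Fintype.sum_prod_type,
        Finset.mul_sum]
      simp only [Equiv.symm_apply_apply, Finset.sum_const, Finset.card_univ, Fintype.card_fin,
        nsmul_eq_mul]
    rw [bd_det, Matrix.det_pow, ← pow_mul, Int.cast_pow, abs_pow, Real.log_pow, h1,
      Real.log_prod (fun l _ => (hμpos l).ne'), h2]
    push_cast
    ring
  have hdet0 : (comp p).det ≠ 0 := by
    intro h0
    rw [h0, Int.cast_zero] at hdetO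
    exact (Finset.prod_ne_zero_iff.2 fun l _ => hμ0 l) hdetO.symm
  obtain ⟨t0, ht0⟩ := Filter.eventually_atTop.1 (hnn.eventually_ge_atTop (max m0 m1))
  have hge : ∀ t, max m0 m1 ≤ nn (t + t0) := fun t => ht0 _ (by omega)
  have htt : Tendsto (fun t => t + t0) atTop atTop := tendsto_add_atTop_nat t0
  obtain ⟨y, hy, hfr⟩ := subspaceO O φ (n * q) 1 hn M0 (bd q (MM μ))
    (fun _ l => μ (finProdFinEquiv.symm l).1)
    ⟨hM0det, hM0im, hBdet, fun _ l => hμ0 _⟩ cc γ hcc hγ
    (fun t => (nn (t + t0) : ℝ)) (tendsto_natCast_atTop_atTop.comp (hnn.comp htt))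
    (fun t _ => nn (t + t0)) (fun t => bd q (comp p ^ nn (t + t0)))
    (by
      intro t
      refine ⟨by rw [bd_det, Matrix.det_pow]; exact pow_ne_zero _ (pow_ne_zero _ hdet0), ?_⟩
      have h1 := BM_pow q μ p hp (nn (t + t0))
      refine h1.trans ?_
      congr 2
      funext l
      simp [bet])
    (fun t => A (nn (t + t0)))
    (by
      intro t
      obtain ⟨h1, h2, h3⟩ := hm0 _ ((le_max_left _ _).trans (hge t))
      refine ⟨?_, fun l => hA0 _ l, fun l => ?_, ?_⟩
      · rw [hlogdet]; exact h1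
      · rw [hlogA]; exact h2 l
      · rw [hlogdet, Finset.sum_congr rfl fun l _ => hlogA (nn (t + t0)) l]
        exact h3)
    (fun t => ZZ q p (nn (t + t0)) (nn (t + t0)))
    (by
      intro t h0
      -- the coordinate with the power `0`
      have hq : 0 < q := by
        rcases Nat.eq_zero_or_pos q with h | h
        · rw [h, mul_zero] at hn
          omega
        · exact h
      have h1 := BM_ZZ q μ hμ p hp (nn (t + t0))
        (finProdFinEquiv ((finProdFinEquiv.symm l0).1, ⟨0, hq⟩))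
      rw [h0] at h1
      simp only [Pi.zero_apply, Int.cast_zero, mul_zero, Finset.sum_const_zero,
        Equiv.symm_apply_apply, pow_zero, one_mul] at h1
      exact mul_ne_zero hΔ (pow_ne_zero _ (hμ0 _)) h1.symm)
    (by
      intro t
      refine ⟨fun l => ?_, ZZ q p (nn (t + t0)) 0, ZZ_step q μ hμ p hp _⟩
      refine (hM0le l _).trans ?_
      show _ ≤ if l = l0 then K * K0 * R ^ nn (t + t0) else
        K * (Real.exp δ * ‖φ (μ (finProdFinEquiv.symm l).1)‖) ^ nn (t + t0)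
      by_cases h : l = l0
      · rw [if_pos h, h, hM1a, map_mul, norm_mul]
        have := hsmall (t + t0)
        calc 2 * (‖φ Δ‖ * ‖φ (∑ l, c l * ((nn (t + t0) : O) ^ ((finProdFinEquiv.symm l).2 : ℕ) *
              μ (finProdFinEquiv.symm l).1 ^ nn (t + t0)))‖)
            ≤ 2 * (‖φ Δ‖ * (K0 * R ^ nn (t + t0))) := by gcongr
          _ = K * K0 * R ^ nn (t + t0) := by rw [hKd]; ring
      · have e3 : ‖φ ((nn (t + t0) : O) ^ ((finProdFinEquiv.symm l).2 : ℕ))‖ =
            (nn (t + t0) : ℝ) ^ ((finProdFinEquiv.symm l).2 : ℕ) := by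
          rw [map_pow, norm_pow, map_natCast, Complex.norm_natCast]
        have e4 : ‖φ (μ (finProdFinEquiv.symm l).1 ^ nn (t + t0))‖ =
            ‖φ (μ (finProdFinEquiv.symm l).1)‖ ^ nn (t + t0) := by
          rw [map_pow, norm_pow]
        rw [if_neg h, hM1b _ _ h, map_mul, norm_mul, map_mul, norm_mul, e3, e4, hKd, mul_assoc]
        refine mul_le_mul_of_nonneg_left (mul_le_mul_of_nonneg_left ?_ (norm_nonneg _)) (by norm_num)
        rw [mul_pow, ← Real.exp_nat_mul, mul_comm _ δ]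
        refine mul_le_mul_of_nonneg_right ?_ (by positivity)
        exact hm1 _ ((le_max_right _ _).trans (hge t)) _ (finProdFinEquiv.symm l).2.2.le)
  exact ⟨y, hy, htt.frequently hfr⟩

end Pool.Agent.Q183.PG
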